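import Pool.Agent.Helper240.Loops

/-!
There is a homotopically non-trivial loop in the classifying space of real analytic codimension one
Haefliger structures which is not freely homotopic to any transverse loop.
-/

set_option autoImplicit false

open Pool.Agent.Helper240

namespace Pool.Agent.Results.MP_c87be1_gt.NonTransverseLoop

theorem lift_of_homotopic {U : Type} [Group U] [TopologicalSpace U] [DiscreteTopology U]
    (L : LocSys U) {f g : C(Circle, BGamma)} (h : f.Homotopic g) (F : C(Circle, L.Tot))
    (hF : ∀ z, (F z).proj = f z) : ∃ F' : C(Circle, L.Tot), ∀ z, (F' z).proj = g z := by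
  obtain ⟨H⟩ := h
  have h0 : ∀ a, H.toContinuousMap (0, a) = L.core.proj (F a) := by
    intro a
    have : H (0, a) = f a := H.apply_zero a
    exact this.trans (hF a).symm
  refine ⟨⟨fun a => L.isCoveringMap.liftHomotopy H.toContinuousMap F h0 (1, a), ?_⟩, ?_⟩
  · exact (L.isCoveringMap.liftHomotopy H.toContinuousMap F h0).continuous.comp
      (Continuous.prodMk continuous_const continuous_id)
  · intro z
    have h1 := congrFun (L.isCoveringMap.liftHomotopy_lifts H.toContinuousMap F h0) (1, z)
    have h2 : H (1, z) = g z := H.apply_one z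
    exact h1.trans h2

/-- There is a loop `f` in the classifying space which is not null-homotopic, and which is not
freely homotopic to any transverse loop `g`. -/
theorem result : ∃ f : C(Circle, BGamma), ¬ f.Nullhomotopic ∧
    ∀ g : C(Circle, BGamma), IsTransverse g → ¬ f.Homotopic g := by
  refine ⟨cubeLoop, ?_, ?_⟩
  · rintro ⟨y, hy⟩
    let _ : TopologicalSpace (LineCalc.Univ anPG.lineCalc) := ⊥
    have _ : DiscreteTopology (LineCalc.Univ anPG.lineCalc) := ⟨rfl⟩
    let e : anSys.Tot := ⟨y, (1 : LineCalc.Univ anPG.lineCalc)⟩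
    obtain ⟨F, hF⟩ := lift_of_homotopic anSys hy.symm (ContinuousMap.const Circle e)
      (fun z => rfl)
    exact cube_not_lift F hF
  · intro g hg hfg
    let _ : TopologicalSpace (LineCalc.Univ pxPG.lineCalc) := ⊥
    have _ : DiscreteTopology (LineCalc.Univ pxPG.lineCalc) := ⟨rfl⟩
    obtain ⟨F, hF, _⟩ := cube_lift 1
    obtain ⟨F', hF'⟩ := lift_of_homotopic pxSys hfg F hF
    exact not_lift_of_transverse pxPG pxPG_of g hg F' hF'

end Pool.Agent.Results.MP_c87be1_gt.NonTransverseLoop
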